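import Pool.Agent.Helper48.WeissJ.Goals

/-! Packet REF: refining a coding by a threshold. -/

set_option autoImplicit false

open Set Filter Topology

namespace Pool.Agent.Helper57.WeissJ

open Pool.Agent.Helper48.WeissJ

universe u

theorem exists_half {X : Type u} {Λ : Type} [TopologicalSpace X] [Nonempty X] {F : X → X}
    {q : Λ → X → ℝ} (hq : IsCoding q) (g : ℕ) (w : Fin g → Λ) :
    ∃ y, (1 / 2) * top F q g w univ ≤ qw F q g w y := by
  by_cases h0 : top F q g w univ ≤ 0
  · obtain ⟨y⟩ := ‹Nonempty X›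
    refine ⟨y, le_trans ?_ (hq.qw_nonneg g w y)⟩
    linarith
  · push Not at h0
    have h1 : (1 / 2) * top F q g w univ < sSup (qw F q g w '' univ) := by
      change _ < top F q g w univ
      linarith
    obtain ⟨_, ⟨y, -, rfl⟩, hy⟩ := exists_lt_of_lt_csSup (univ_nonempty.image _) h1
    exact ⟨y, hy.le⟩

theorem refi_eq {X : Type u} {Λ : Type} (q : Λ → X → ℝ) (v : X → ℝ) (κ ω : ℝ) (a : Λ) (x : X) :
    refi q v κ ω (a, decide (κ ≤ v x)) x = q a x * min 1 (|v x - κ| / ω) := by
  unfold refi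
  by_cases h : κ ≤ v x
  · simp only [h, decide_true, if_true]
    rw [up_eq h]
  · simp only [h, decide_false, Bool.false_eq_true, if_false]
    rw [dn_eq (not_le.1 h).le]

theorem ref : TH.{0,0} → FREQ.{u} → REF.{u} := by
  intro hTH hFR X Λ _ _ _ F q hq p hPB v hv a b ε hab hε
  have hy : ∀ (g : ℕ) (w : Fin g → Λ), ∃ y, (1 / 2) * top F q g w univ ≤ qw F q g w y :=
    fun g w => exists_half hq g w
  choose y hy using hy
  have hsum : ∀ g, (1 / 2) * cap F q g univ ≤ ∑ w : Fin g → Λ, qw F q g w (y g w) := by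
    intro g
    unfold cap
    rw [Finset.mul_sum]
    exact Finset.sum_le_sum fun w _ => hy g w
  have hlow : ∀ g : ℕ, (1 / 2) * Real.exp (p * g) ≤ ∑ w : Fin g → Λ, qw F q g w (y g w) := by
    intro g
    have := hPB g
    have h2 := hsum g
    linarith
  obtain ⟨κ, hκ, ω, hω, hfr⟩ := hTH (fun g => Fin g → Λ) (fun g => Fin g) 1
    (fun g => by simp) (fun g w => qw F q g w (y g w)) (fun g w => hq.qw_nonneg g w _)
    (fun g => lt_of_lt_of_le (by positivity) (hlow g))
    (fun g w s => v (F^[s] (y g w))) a b (ε / 2) hab (by linarith)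
  refine ⟨κ, hκ, ω, hω, ?_⟩
  have hq' : IsCoding (refi q v κ ω) := hq.refi hv κ hω
  refine (hFR X (Λ × Bool) F (refi q v κ ω) hq').1 (p - ε) ?_
  have hev : ∀ᶠ g : ℕ in atTop, Real.exp (-(ε / 2 * g)) ≤ 1 / 2 := by
    have h1 : Tendsto (fun g : ℕ => ε / 2 * (g : ℝ)) atTop atTop :=
      tendsto_natCast_atTop_atTop.const_mul_atTop (by linarith)
    have h2 : Tendsto (fun g : ℕ => Real.exp (-(ε / 2 * (g : ℝ)))) atTop (𝓝 0) :=
      Real.tendsto_exp_neg_atTop_nhds_zero.comp h1
    exact (h2.eventually (eventually_le_nhds (by norm_num : (0 : ℝ) < 1 / 2)))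
  refine (hfr.and_eventually hev).mono ?_
  rintro g ⟨h1, h2⟩
  have h3 : Real.exp ((p - ε) * g) =
      Real.exp (-(ε / 2 * g)) * (Real.exp (-(ε / 2 * g)) * Real.exp (p * g)) := by
    rw [← Real.exp_add, ← Real.exp_add]
    congr 1; ring
  have h4 : Real.exp ((p - ε) * g) ≤
      Real.exp (-(ε / 2 * g)) * ∑ w : Fin g → Λ, qw F q g w (y g w) := by
    rw [h3]
    refine mul_le_mul_of_nonneg_left ?_ (Real.exp_pos _).le
    exact le_trans (mul_le_mul_of_nonneg_right h2 (Real.exp_pos _).le) (hlow g)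
  refine h4.trans (h1.trans ?_)
  -- the refined words
  set wr : (Fin g → Λ) → (Fin g → Λ × Bool) := fun w s =>
    (w s, decide (κ ≤ v (F^[s] (y g w)))) with hwr
  have hinj : Function.Injective wr := by
    intro w w' h
    funext s
    have := congrFun h s
    simp only [hwr, Prod.mk.injEq] at this
    exact this.1
  have h5 : ∀ w : Fin g → Λ, qw F q g w (y g w) *
      ∏ s : Fin g, min 1 (|v (F^[s] (y g w)) - κ| / ω) ≤
      top F (refi q v κ ω) g (wr w) univ := by
    intro w
    have h6 : qw F q g w (y g w) * ∏ s : Fin g, min 1 (|v (F^[s] (y g w)) - κ| / ω) =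
        qw F (refi q v κ ω) g (wr w) (y g w) := by
      unfold qw
      rw [← Finset.prod_mul_distrib]
      refine Finset.prod_congr rfl fun s _ => ?_
      rw [hwr]
      exact (refi_eq q v κ ω (w s) (F^[s] (y g w))).symm
    rw [h6]
    exact hq'.le_top (mem_univ _)
  calc ∑ w : Fin g → Λ, qw F q g w (y g w) *
        ∏ s : Fin g, min 1 (|v (F^[s] (y g w)) - κ| / ω)
      ≤ ∑ w : Fin g → Λ, top F (refi q v κ ω) g (wr w) univ :=
        Finset.sum_le_sum fun w _ => h5 w
    _ = ∑ w ∈ Finset.univ.map ⟨wr, hinj⟩, top F (refi q v κ ω) g w univ := by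
        rw [Finset.sum_map]; rfl
    _ ≤ ∑ w : Fin g → Λ × Bool, top F (refi q v κ ω) g w univ :=
        Finset.sum_le_sum_of_subset_of_nonneg (Finset.subset_univ _)
          fun w _ _ => hq'.top_nonneg g w univ

end Pool.Agent.Helper57.WeissJ
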